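import Mathlib

namespace Pool.Agent.Lib.MP_f0f309_al

/-- Seventeen cyclic triples on nine points that no cyclic order satisfies at once. -/
theorem core (p0 p1 p2 p3 p4 p5 p6 p7 p8 : ℕ)
    (h0 : (p0 < p1 ∧ p1 < p3) ∨ (p3 < p0 ∧ p0 < p1) ∨ (p1 < p3 ∧ p3 < p0))
    (h1 : (p0 < p8 ∧ p8 < p3) ∨ (p3 < p0 ∧ p0 < p8) ∨ (p8 < p3 ∧ p3 < p0))
    (h2 : (p0 < p7 ∧ p7 < p5) ∨ (p5 < p0 ∧ p0 < p7) ∨ (p7 < p5 ∧ p5 < p0))
    (h3 : (p0 < p7 ∧ p7 < p6) ∨ (p6 < p0 ∧ p0 < p7) ∨ (p7 < p6 ∧ p6 < p0))
    (h4 : (p1 < p5 ∧ p5 < p2) ∨ (p2 < p1 ∧ p1 < p5) ∨ (p5 < p2 ∧ p2 < p1))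
    (h5 : (p1 < p7 ∧ p7 < p2) ∨ (p2 < p1 ∧ p1 < p7) ∨ (p7 < p2 ∧ p2 < p1))
    (h6 : (p1 < p4 ∧ p4 < p6) ∨ (p6 < p1 ∧ p1 < p4) ∨ (p4 < p6 ∧ p6 < p1))
    (h7 : (p1 < p4 ∧ p4 < p8) ∨ (p8 < p1 ∧ p1 < p4) ∨ (p4 < p8 ∧ p8 < p1))
    (h8 : (p1 < p5 ∧ p5 < p8) ∨ (p8 < p1 ∧ p1 < p5) ∨ (p5 < p8 ∧ p8 < p1))
    (h9 : (p2 < p6 ∧ p6 < p3) ∨ (p3 < p2 ∧ p2 < p6) ∨ (p6 < p3 ∧ p3 < p2))
    (h10 : (p2 < p8 ∧ p8 < p3) ∨ (p3 < p2 ∧ p2 < p8) ∨ (p8 < p3 ∧ p3 < p2))
    (h11 : (p2 < p8 ∧ p8 < p7) ∨ (p7 < p2 ∧ p2 < p8) ∨ (p8 < p7 ∧ p7 < p2))
    (h12 : (p3 < p4 ∧ p4 < p7) ∨ (p7 < p3 ∧ p3 < p4) ∨ (p4 < p7 ∧ p7 < p3))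
    (h13 : (p3 < p4 ∧ p4 < p8) ∨ (p8 < p3 ∧ p3 < p4) ∨ (p4 < p8 ∧ p8 < p3))
    (h14 : (p4 < p6 ∧ p6 < p5) ∨ (p5 < p4 ∧ p4 < p6) ∨ (p6 < p5 ∧ p5 < p4))
    (h15 : (p5 < p8 ∧ p8 < p6) ∨ (p6 < p5 ∧ p5 < p8) ∨ (p8 < p6 ∧ p6 < p5))
    (h16 : (p5 < p8 ∧ p8 < p7) ∨ (p7 < p5 ∧ p5 < p8) ∨ (p8 < p7 ∧ p7 < p5))
    : False := by
  rcases h0 with ⟨_, _⟩ | ⟨_, _⟩ | ⟨_, _⟩
  · rcases h1 with ⟨_, _⟩ | ⟨_, _⟩ | ⟨_, _⟩
    · rcases h10 with ⟨_, _⟩ | ⟨_, _⟩ | ⟨_, _⟩
      · rcases h9 with ⟨_, _⟩ | ⟨_, _⟩ | ⟨_, _⟩
        · rcases h13 with ⟨_, _⟩ | ⟨_, _⟩ | ⟨_, _⟩
          · omega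
          · rcases h14 with ⟨_, _⟩ | ⟨_, _⟩ | ⟨_, _⟩
            · omega
            · omega
            · rcases h4 with ⟨_, _⟩ | ⟨_, _⟩ | ⟨_, _⟩
              · omega
              · rcases h2 with ⟨_, _⟩ | ⟨_, _⟩ | ⟨_, _⟩
                · rcases h7 with ⟨_, _⟩ | ⟨_, _⟩ | ⟨_, _⟩
                  · omega
                  · rcases h15 with ⟨_, _⟩ | ⟨_, _⟩ | ⟨_, _⟩
                    · omega
                    · omega
                    · rcases h3 with ⟨_, _⟩ | ⟨_, _⟩ | ⟨_, _⟩
                      · rcases h6 with ⟨_, _⟩ | ⟨_, _⟩ | ⟨_, _⟩
                        · omega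
                        · rcases h5 with ⟨_, _⟩ | ⟨_, _⟩ | ⟨_, _⟩
                          · omega
                          · omega
                          · rcases h16 with ⟨_, _⟩ | ⟨_, _⟩ | ⟨_, _⟩
                            · omega
                            · omega
                            · omega
                        · omega
                      · omega
                      · omega
                  · omega
                · omega
                · omega
              · omega
          · rcases h12 with ⟨_, _⟩ | ⟨_, _⟩ | ⟨_, _⟩
            · omega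
            · omega
            · rcases h7 with ⟨_, _⟩ | ⟨_, _⟩ | ⟨_, _⟩
              · rcases h8 with ⟨_, _⟩ | ⟨_, _⟩ | ⟨_, _⟩
                · rcases h2 with ⟨_, _⟩ | ⟨_, _⟩ | ⟨_, _⟩
                  · rcases h11 with ⟨_, _⟩ | ⟨_, _⟩ | ⟨_, _⟩
                    · omega
                    · rcases h14 with ⟨_, _⟩ | ⟨_, _⟩ | ⟨_, _⟩
                      · rcases h4 with ⟨_, _⟩ | ⟨_, _⟩ | ⟨_, _⟩
                        · omega
                        · omega
                        · omega
                      · omega
                      · omega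
                    · omega
                  · omega
                  · omega
                · omega
                · omega
              · omega
              · rcases h6 with ⟨_, _⟩ | ⟨_, _⟩ | ⟨_, _⟩
                · omega
                · omega
                · rcases h4 with ⟨_, _⟩ | ⟨_, _⟩ | ⟨_, _⟩
                  · omega
                  · rcases h16 with ⟨_, _⟩ | ⟨_, _⟩ | ⟨_, _⟩
                    · omega
                    · omega
                    · rcases h5 with ⟨_, _⟩ | ⟨_, _⟩ | ⟨_, _⟩
                      · omega
                      · rcases h3 with ⟨_, _⟩ | ⟨_, _⟩ | ⟨_, _⟩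
                        · omega
                        · rcases h15 with ⟨_, _⟩ | ⟨_, _⟩ | ⟨_, _⟩
                          · omega
                          · omega
                          · omega
                        · omega
                      · omega
                  · rcases h14 with ⟨_, _⟩ | ⟨_, _⟩ | ⟨_, _⟩
                    · omega
                    · rcases h16 with ⟨_, _⟩ | ⟨_, _⟩ | ⟨_, _⟩
                      · rcases h5 with ⟨_, _⟩ | ⟨_, _⟩ | ⟨_, _⟩
                        · omega
                        · rcases h3 with ⟨_, _⟩ | ⟨_, _⟩ | ⟨_, _⟩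
                          · omega
                          · rcases h15 with ⟨_, _⟩ | ⟨_, _⟩ | ⟨_, _⟩
                            · omega
                            · omega
                            · omega
                          · omega
                        · omega
                      · omega
                      · omega
                    · omega
        · omega
        · omega
      · omega
      · rcases h4 with ⟨_, _⟩ | ⟨_, _⟩ | ⟨_, _⟩
        · rcases h2 with ⟨_, _⟩ | ⟨_, _⟩ | ⟨_, _⟩
          · rcases h11 with ⟨_, _⟩ | ⟨_, _⟩ | ⟨_, _⟩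
            · omega
            · omega
            · rcases h15 with ⟨_, _⟩ | ⟨_, _⟩ | ⟨_, _⟩
              · omega
              · omega
              · rcases h3 with ⟨_, _⟩ | ⟨_, _⟩ | ⟨_, _⟩
                · rcases h5 with ⟨_, _⟩ | ⟨_, _⟩ | ⟨_, _⟩
                  · rcases h6 with ⟨_, _⟩ | ⟨_, _⟩ | ⟨_, _⟩
                    · rcases h9 with ⟨_, _⟩ | ⟨_, _⟩ | ⟨_, _⟩
                      · omega
                      · omega
                      · rcases h13 with ⟨_, _⟩ | ⟨_, _⟩ | ⟨_, _⟩
                        · omega
                        · omega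
                        · rcases h8 with ⟨_, _⟩ | ⟨_, _⟩ | ⟨_, _⟩
                          · omega
                          · omega
                          · omega
                    · omega
                    · omega
                  · omega
                  · omega
                · omega
                · omega
          · omega
          · omega
        · omega
        · omega
    · omega
    · omega
  · rcases h1 with ⟨_, _⟩ | ⟨_, _⟩ | ⟨_, _⟩
    · omega
    · rcases h10 with ⟨_, _⟩ | ⟨_, _⟩ | ⟨_, _⟩
      · omega
      · rcases h13 with ⟨_, _⟩ | ⟨_, _⟩ | ⟨_, _⟩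
        · rcases h9 with ⟨_, _⟩ | ⟨_, _⟩ | ⟨_, _⟩
          · omega
          · rcases h12 with ⟨_, _⟩ | ⟨_, _⟩ | ⟨_, _⟩
            · rcases h7 with ⟨_, _⟩ | ⟨_, _⟩ | ⟨_, _⟩
              · rcases h8 with ⟨_, _⟩ | ⟨_, _⟩ | ⟨_, _⟩
                · rcases h2 with ⟨_, _⟩ | ⟨_, _⟩ | ⟨_, _⟩
                  · rcases h11 with ⟨_, _⟩ | ⟨_, _⟩ | ⟨_, _⟩
                    · omega
                    · rcases h14 with ⟨_, _⟩ | ⟨_, _⟩ | ⟨_, _⟩
                      · rcases h4 with ⟨_, _⟩ | ⟨_, _⟩ | ⟨_, _⟩
                        · omega
                        · omega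
                        · omega
                      · omega
                      · omega
                    · omega
                  · omega
                  · omega
                · omega
                · omega
              · omega
              · rcases h6 with ⟨_, _⟩ | ⟨_, _⟩ | ⟨_, _⟩
                · omega
                · omega
                · rcases h4 with ⟨_, _⟩ | ⟨_, _⟩ | ⟨_, _⟩
                  · omega
                  · rcases h16 with ⟨_, _⟩ | ⟨_, _⟩ | ⟨_, _⟩
                    · omega
                    · omega
                    · rcases h5 with ⟨_, _⟩ | ⟨_, _⟩ | ⟨_, _⟩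
                      · omega
                      · rcases h3 with ⟨_, _⟩ | ⟨_, _⟩ | ⟨_, _⟩
                        · omega
                        · rcases h15 with ⟨_, _⟩ | ⟨_, _⟩ | ⟨_, _⟩
                          · omega
                          · omega
                          · omega
                        · omega
                      · omega
                  · rcases h14 with ⟨_, _⟩ | ⟨_, _⟩ | ⟨_, _⟩
                    · omega
                    · rcases h16 with ⟨_, _⟩ | ⟨_, _⟩ | ⟨_, _⟩
                      · rcases h5 with ⟨_, _⟩ | ⟨_, _⟩ | ⟨_, _⟩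
                        · omega
                        · rcases h3 with ⟨_, _⟩ | ⟨_, _⟩ | ⟨_, _⟩
                          · omega
                          · rcases h15 with ⟨_, _⟩ | ⟨_, _⟩ | ⟨_, _⟩
                            · omega
                            · omega
                            · omega
                          · omega
                        · omega
                      · omega
                      · omega
                    · omega
            · rcases h3 with ⟨_, _⟩ | ⟨_, _⟩ | ⟨_, _⟩
              · omega
              · omega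
              · rcases h15 with ⟨_, _⟩ | ⟨_, _⟩ | ⟨_, _⟩
                · omega
                · rcases h4 with ⟨_, _⟩ | ⟨_, _⟩ | ⟨_, _⟩
                  · omega
                  · rcases h2 with ⟨_, _⟩ | ⟨_, _⟩ | ⟨_, _⟩
                    · omega
                    · omega
                    · omega
                  · omega
                · omega
            · omega
          · rcases h6 with ⟨_, _⟩ | ⟨_, _⟩ | ⟨_, _⟩
            · omega
            · rcases h8 with ⟨_, _⟩ | ⟨_, _⟩ | ⟨_, _⟩
              · rcases h2 with ⟨_, _⟩ | ⟨_, _⟩ | ⟨_, _⟩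
                · rcases h12 with ⟨_, _⟩ | ⟨_, _⟩ | ⟨_, _⟩
                  · rcases h14 with ⟨_, _⟩ | ⟨_, _⟩ | ⟨_, _⟩
                    · omega
                    · omega
                    · omega
                  · omega
                  · omega
                · omega
                · omega
              · omega
              · omega
            · omega
        · omega
        · omega
      · omega
    · rcases h7 with ⟨_, _⟩ | ⟨_, _⟩ | ⟨_, _⟩
      · omega
      · rcases h8 with ⟨_, _⟩ | ⟨_, _⟩ | ⟨_, _⟩
        · omega
        · rcases h2 with ⟨_, _⟩ | ⟨_, _⟩ | ⟨_, _⟩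
          · rcases h12 with ⟨_, _⟩ | ⟨_, _⟩ | ⟨_, _⟩
            · rcases h14 with ⟨_, _⟩ | ⟨_, _⟩ | ⟨_, _⟩
              · rcases h9 with ⟨_, _⟩ | ⟨_, _⟩ | ⟨_, _⟩
                · omega
                · rcases h11 with ⟨_, _⟩ | ⟨_, _⟩ | ⟨_, _⟩
                  · omega
                  · omega
                  · rcases h4 with ⟨_, _⟩ | ⟨_, _⟩ | ⟨_, _⟩
                    · omega
                    · omega
                    · omega
                · omega
              · omega
              · omega
            · omega
            · omega
          · omega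
          · omega
        · rcases h4 with ⟨_, _⟩ | ⟨_, _⟩ | ⟨_, _⟩
          · omega
          · omega
          · rcases h14 with ⟨_, _⟩ | ⟨_, _⟩ | ⟨_, _⟩
            · omega
            · rcases h3 with ⟨_, _⟩ | ⟨_, _⟩ | ⟨_, _⟩
              · rcases h12 with ⟨_, _⟩ | ⟨_, _⟩ | ⟨_, _⟩
                · rcases h11 with ⟨_, _⟩ | ⟨_, _⟩ | ⟨_, _⟩
                  · rcases h9 with ⟨_, _⟩ | ⟨_, _⟩ | ⟨_, _⟩
                    · omega
                    · omega
                    · omega
                  · omega
                  · omega
                · omega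
                · omega
              · omega
              · omega
            · rcases h9 with ⟨_, _⟩ | ⟨_, _⟩ | ⟨_, _⟩
              · omega
              · omega
              · rcases h11 with ⟨_, _⟩ | ⟨_, _⟩ | ⟨_, _⟩
                · omega
                · omega
                · rcases h2 with ⟨_, _⟩ | ⟨_, _⟩ | ⟨_, _⟩
                  · omega
                  · rcases h12 with ⟨_, _⟩ | ⟨_, _⟩ | ⟨_, _⟩
                    · omega
                    · omega
                    · omega
                  · omega
      · rcases h12 with ⟨_, _⟩ | ⟨_, _⟩ | ⟨_, _⟩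
        · omega
        · omega
        · rcases h2 with ⟨_, _⟩ | ⟨_, _⟩ | ⟨_, _⟩
          · omega
          · omega
          · rcases h3 with ⟨_, _⟩ | ⟨_, _⟩ | ⟨_, _⟩
            · omega
            · omega
            · rcases h4 with ⟨_, _⟩ | ⟨_, _⟩ | ⟨_, _⟩
              · omega
              · omega
              · rcases h8 with ⟨_, _⟩ | ⟨_, _⟩ | ⟨_, _⟩
                · omega
                · omega
                · rcases h14 with ⟨_, _⟩ | ⟨_, _⟩ | ⟨_, _⟩
                  · rcases h11 with ⟨_, _⟩ | ⟨_, _⟩ | ⟨_, _⟩
                    · omega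
                    · rcases h9 with ⟨_, _⟩ | ⟨_, _⟩ | ⟨_, _⟩
                      · omega
                      · omega
                      · omega
                    · omega
                  · omega
                  · omega
  · rcases h1 with ⟨_, _⟩ | ⟨_, _⟩ | ⟨_, _⟩
    · omega
    · rcases h10 with ⟨_, _⟩ | ⟨_, _⟩ | ⟨_, _⟩
      · omega
      · rcases h4 with ⟨_, _⟩ | ⟨_, _⟩ | ⟨_, _⟩
        · rcases h5 with ⟨_, _⟩ | ⟨_, _⟩ | ⟨_, _⟩
          · rcases h13 with ⟨_, _⟩ | ⟨_, _⟩ | ⟨_, _⟩
            · rcases h16 with ⟨_, _⟩ | ⟨_, _⟩ | ⟨_, _⟩
              · omega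
              · rcases h6 with ⟨_, _⟩ | ⟨_, _⟩ | ⟨_, _⟩
                · rcases h9 with ⟨_, _⟩ | ⟨_, _⟩ | ⟨_, _⟩
                  · omega
                  · rcases h14 with ⟨_, _⟩ | ⟨_, _⟩ | ⟨_, _⟩
                    · omega
                    · rcases h12 with ⟨_, _⟩ | ⟨_, _⟩ | ⟨_, _⟩
                      · omega
                      · rcases h3 with ⟨_, _⟩ | ⟨_, _⟩ | ⟨_, _⟩
                        · omega
                        · omega
                        · rcases h15 with ⟨_, _⟩ | ⟨_, _⟩ | ⟨_, _⟩
                          · omega
                          · omega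
                          · omega
                      · omega
                    · omega
                  · omega
                · rcases h3 with ⟨_, _⟩ | ⟨_, _⟩ | ⟨_, _⟩
                  · omega
                  · rcases h12 with ⟨_, _⟩ | ⟨_, _⟩ | ⟨_, _⟩
                    · rcases h14 with ⟨_, _⟩ | ⟨_, _⟩ | ⟨_, _⟩
                      · omega
                      · omega
                      · omega
                    · omega
                    · omega
                  · omega
                · omega
              · omega
            · omega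
            · omega
          · omega
          · omega
        · omega
        · omega
      · omega
    · rcases h10 with ⟨_, _⟩ | ⟨_, _⟩ | ⟨_, _⟩
      · rcases h9 with ⟨_, _⟩ | ⟨_, _⟩ | ⟨_, _⟩
        · rcases h3 with ⟨_, _⟩ | ⟨_, _⟩ | ⟨_, _⟩
          · omega
          · rcases h12 with ⟨_, _⟩ | ⟨_, _⟩ | ⟨_, _⟩
            · rcases h14 with ⟨_, _⟩ | ⟨_, _⟩ | ⟨_, _⟩
              · omega
              · omega
              · rcases h16 with ⟨_, _⟩ | ⟨_, _⟩ | ⟨_, _⟩
                · rcases h7 with ⟨_, _⟩ | ⟨_, _⟩ | ⟨_, _⟩
                  · omega
                  · rcases h4 with ⟨_, _⟩ | ⟨_, _⟩ | ⟨_, _⟩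
                    · omega
                    · omega
                    · omega
                  · omega
                · omega
                · omega
            · omega
            · omega
          · rcases h2 with ⟨_, _⟩ | ⟨_, _⟩ | ⟨_, _⟩
            · omega
            · omega
            · rcases h12 with ⟨_, _⟩ | ⟨_, _⟩ | ⟨_, _⟩
              · omega
              · rcases h6 with ⟨_, _⟩ | ⟨_, _⟩ | ⟨_, _⟩
                · omega
                · rcases h14 with ⟨_, _⟩ | ⟨_, _⟩ | ⟨_, _⟩
                  · omega
                  · omega
                  · rcases h5 with ⟨_, _⟩ | ⟨_, _⟩ | ⟨_, _⟩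
                    · omega
                    · omega
                    · rcases h16 with ⟨_, _⟩ | ⟨_, _⟩ | ⟨_, _⟩
                      · omega
                      · rcases h4 with ⟨_, _⟩ | ⟨_, _⟩ | ⟨_, _⟩
                        · omega
                        · rcases h7 with ⟨_, _⟩ | ⟨_, _⟩ | ⟨_, _⟩
                          · omega
                          · omega
                          · omega
                        · omega
                      · omega
                · omega
              · rcases h14 with ⟨_, _⟩ | ⟨_, _⟩ | ⟨_, _⟩
                · rcases h4 with ⟨_, _⟩ | ⟨_, _⟩ | ⟨_, _⟩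
                  · omega
                  · rcases h13 with ⟨_, _⟩ | ⟨_, _⟩ | ⟨_, _⟩
                    · omega
                    · omega
                    · rcases h6 with ⟨_, _⟩ | ⟨_, _⟩ | ⟨_, _⟩
                      · rcases h8 with ⟨_, _⟩ | ⟨_, _⟩ | ⟨_, _⟩
                        · rcases h11 with ⟨_, _⟩ | ⟨_, _⟩ | ⟨_, _⟩
                          · omega
                          · omega
                          · omega
                        · omega
                        · omega
                      · omega
                      · rcases h5 with ⟨_, _⟩ | ⟨_, _⟩ | ⟨_, _⟩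
                        · omega
                        · omega
                        · rcases h16 with ⟨_, _⟩ | ⟨_, _⟩ | ⟨_, _⟩
                          · omega
                          · rcases h7 with ⟨_, _⟩ | ⟨_, _⟩ | ⟨_, _⟩
                            · omega
                            · omega
                            · omega
                          · omega
                  · omega
                · omega
                · omega
        · omega
        · omega
      · omega
      · rcases h4 with ⟨_, _⟩ | ⟨_, _⟩ | ⟨_, _⟩
        · rcases h5 with ⟨_, _⟩ | ⟨_, _⟩ | ⟨_, _⟩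
          · rcases h11 with ⟨_, _⟩ | ⟨_, _⟩ | ⟨_, _⟩
            · omega
            · omega
            · rcases h9 with ⟨_, _⟩ | ⟨_, _⟩ | ⟨_, _⟩
              · omega
              · rcases h15 with ⟨_, _⟩ | ⟨_, _⟩ | ⟨_, _⟩
                · rcases h7 with ⟨_, _⟩ | ⟨_, _⟩ | ⟨_, _⟩
                  · rcases h2 with ⟨_, _⟩ | ⟨_, _⟩ | ⟨_, _⟩
                    · omega
                    · rcases h12 with ⟨_, _⟩ | ⟨_, _⟩ | ⟨_, _⟩
                      · omega
                      · omega
                      · omega
                    · omega
                  · omega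
                  · omega
                · omega
                · omega
              · rcases h3 with ⟨_, _⟩ | ⟨_, _⟩ | ⟨_, _⟩
                · omega
                · rcases h12 with ⟨_, _⟩ | ⟨_, _⟩ | ⟨_, _⟩
                  · rcases h14 with ⟨_, _⟩ | ⟨_, _⟩ | ⟨_, _⟩
                    · omega
                    · omega
                    · rcases h16 with ⟨_, _⟩ | ⟨_, _⟩ | ⟨_, _⟩
                      · rcases h7 with ⟨_, _⟩ | ⟨_, _⟩ | ⟨_, _⟩
                        · omega
                        · omega
                        · omega
                      · omega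
                      · omega
                  · omega
                  · omega
                · rcases h6 with ⟨_, _⟩ | ⟨_, _⟩ | ⟨_, _⟩
                  · rcases h2 with ⟨_, _⟩ | ⟨_, _⟩ | ⟨_, _⟩
                    · omega
                    · omega
                    · rcases h13 with ⟨_, _⟩ | ⟨_, _⟩ | ⟨_, _⟩
                      · omega
                      · omega
                      · rcases h8 with ⟨_, _⟩ | ⟨_, _⟩ | ⟨_, _⟩
                        · omega
                        · omega
                        · omega
                  · omega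
                  · omega
          · omega
          · omega
        · omega
        · omega

end Pool.Agent.Lib.MP_f0f309_al
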